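import Pool.Agent.N452.KR.Final

/-!
# Weak approximation on K3 surfaces of tridegree `(2,2,2)`: real components and `p`-adic points

`X ⊂ P¹ × P¹ × P¹` is the surface `F = 0`, where `F` is a form of tridegree `(2,2,2)` over a number
field `K`, with finitely many singular points and without fibres of the three projections to
`P¹ × P¹` (`Admissible`); if `X` is smooth, it is a K3 surface. A point of the product of three
projective lines is given by three nonzero vectors, up to scaling. `σ` is a real embedding of `K`, and
`τ i` are finitely many embeddings of `K` into fields `ℚ_[p i]`; the primes `p i` need not be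
distinct, so for example several places of `K` above the same prime are allowed.

The Brauer–Manin set only depends on the connected components at the real places. So if it is the
only obstruction to weak approximation, then the closure of `X(K)` in `X(ℝ) × ∏ X(ℚ_[p i])` is a union
of sets `M × {y}`, where `M` is a connected component of `X(ℝ)`. We show that this is true, up to a
finite set `T` of rational points of `X` which does not depend on the places.

(1) Let `(x, y)` be in the closure of `X(K)` in `X(ℝ) × ∏ X(ℚ_[p i])`, `x` a smooth real point. Then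
`(x, y)` is (the image of) a point of `T`, or the closure contains `M × {y}`, where `M` is the
connected component of `x` in the set of the smooth real points. For example, if `P` is a rational
point outside `T`, then every real point of the component of `P` is a limit of rational points which
tend to `P` in all the `X(ℚ_[p i])`.

(2) Let `P` be a rational point outside `T`, which is smooth, and let the primes `p i` be distinct.
Then the closure of `X(K)` contains `M × U`, where `M` is the connected component of `P` in the set of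
the smooth real points and `U` is a neighbourhood of `P` in `∏ X(ℚ_[p i])`.

In the statements the real points are replaced by the cone `smoothReal` of all their representatives
(a connected component of the cone lies over a connected component of the surface).

Proof. The multiples of a point of infinite order of an elliptic curve over `K` which are divisible by
a large power of the product of the `p i` are near to zero in the `ℚ_[p i]`, and they are still dense in
the real component of zero. So one can move along the real components of the fibres of the three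
elliptic fibrations without moving at the finite places; the set of the real points which can be
reached is open and closed at the smooth points. The real part of the argument is that of helper279
(`Pool.Agent.W279.TriR`), and (2) uses the starting result `WeakApproxTriquadratic`.
-/

set_option autoImplicit false

namespace Pool.Agent.Results.MP_ed3816_nt.RealComponents

open MvPolynomial

/-- The hypotheses on the form `F`. -/
structure Admissible {K : Type} [Field K] (F : MvPolynomial (Fin 3 × Fin 2) K) : Prop where
  /-- `F` has the tridegree `(2,2,2)` -/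
  tridegree : ∀ m ∈ F.support, ∀ i : Fin 3, m (i, 0) + m (i, 1) = 2
  /-- no fibre of the projections to two of the factors lies on the surface -/
  noFibre : ∀ (i : Fin 3) (p : Fin 3 → Fin 2 → AlgebraicClosure K), (∀ j, p j ≠ 0) →
    ∃ w : Fin 2 → AlgebraicClosure K,
      aeval (fun q : Fin 3 × Fin 2 => Function.update p i w q.1 q.2) F ≠ 0
  /-- the surface has only finitely many singular points -/
  isolated : ∃ S : Set (Fin 3 → Fin 2 → AlgebraicClosure K), S.Finite ∧
    ∀ p : Fin 3 → Fin 2 → AlgebraicClosure K, (∀ i, p i ≠ 0) →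
      (∀ q : Fin 3 × Fin 2, aeval (fun r : Fin 3 × Fin 2 => p r.1 r.2) (pderiv q F) = 0) →
      ∃ s ∈ S, ∀ i, ∃ t : AlgebraicClosure K, p i = t • s i

/-- The image of `X(K)` in the product over the real place `σ` and the finite places `τ i`: all
families of representatives, over the completions, of one `K`-rational point `P`. -/
def ratPoints {K : Type} [Field K] (F : MvPolynomial (Fin 3 × Fin 2) K) {ι : Type} (p : ι → ℕ)
    [∀ i, Fact (p i).Prime] (σ : K →+* ℝ) (τ : ∀ i, K →+* ℚ_[p i]) :
    Set ((Fin 3 → Fin 2 → ℝ) × ∀ i, Fin 3 → Fin 2 → ℚ_[p i]) :=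
  {x | ∃ P : Fin 3 → Fin 2 → K, (∀ j, P j ≠ 0) ∧ eval (fun r => P r.1 r.2) F = 0 ∧
    (∃ d : Fin 3 → ℝ, (∀ j, d j ≠ 0) ∧ x.1 = fun j a => d j * σ (P j a)) ∧
    ∀ i, ∃ d : Fin 3 → ℚ_[p i], (∀ j, d j ≠ 0) ∧ x.2 i = fun j a => d j * τ i (P j a)}

/-- The representatives of the smooth real points of `X`: the real points at which some partial
derivative of `F` does not vanish. -/
def smoothReal {K : Type} [Field K] (F : MvPolynomial (Fin 3 × Fin 2) K) (σ : K →+* ℝ) :
    Set (Fin 3 → Fin 2 → ℝ) :=
  {x | (∀ j, x j ≠ 0) ∧ eval₂ σ (fun r : Fin 3 × Fin 2 => x r.1 r.2) F = 0 ∧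
    ∃ r, eval₂ σ (fun q : Fin 3 × Fin 2 => x q.1 q.2) (pderiv r F) ≠ 0}

/-- **Real components and `p`-adic points.** -/
theorem result :
    ∀ (K : Type) [Field K] [NumberField K] (F : MvPolynomial (Fin 3 × Fin 2) K), Admissible F →
      -- a finite set of rational points
      ∃ T : Set (Fin 3 → Fin 2 → K), T.Finite ∧
        (∀ P ∈ T, (∀ j, P j ≠ 0) ∧ eval (fun r => P r.1 r.2) F = 0) ∧
        ∀ (σ : K →+* ℝ) (ι : Type) [Finite ι] (p : ι → ℕ) [∀ i, Fact (p i).Prime]
          (τ : ∀ i, K →+* ℚ_[p i]),
          -- (1) the closure is a union of sets (connected component) × {y}, up to `T`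
          (∀ (x : Fin 3 → Fin 2 → ℝ) (y : ∀ i, Fin 3 → Fin 2 → ℚ_[p i]),
            (x, y) ∈ closure (ratPoints F p σ τ) → x ∈ smoothReal F σ → (∀ i j, y i j ≠ 0) →
            (∃ P ∈ T, (∀ j, ∃ t : ℝ, t ≠ 0 ∧ x j = t • fun a => σ (P j a)) ∧
              ∀ i j, ∃ t : ℚ_[p i], t ≠ 0 ∧ y i j = t • fun a => τ i (P j a)) ∨
            ∀ x' ∈ connectedComponentIn (smoothReal F σ) x,
              (x', y) ∈ closure (ratPoints F p σ τ)) ∧
          -- (2) near a rational point outside `T` the closure contains the product of the real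
          -- component and a neighbourhood
          (Function.Injective p → ∀ P : Fin 3 → Fin 2 → K, (∀ j, P j ≠ 0) →
            eval (fun r => P r.1 r.2) F = 0 → (fun j a => σ (P j a)) ∈ smoothReal F σ →
            (∃ Q ∈ T, ∀ j, ∃ t : K, t ≠ 0 ∧ P j = t • Q j) ∨
            ∃ U ∈ nhds (fun i j a => τ i (P j a) : ∀ i, Fin 3 → Fin 2 → ℚ_[p i]), ∀ y ∈ U,
              (∀ i, eval₂ (τ i) (fun r => y i r.1 r.2) F = 0) →
              ∀ x' ∈ connectedComponentIn (smoothReal F σ) (fun j a => σ (P j a)),
                (x', y) ∈ closure (ratPoints F p σ τ)) := by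
  intro K _ _ F hF
  obtain ⟨T₂, hT₂, hT₂', hT₂''⟩ := WeakApproxTriquadratic.result K F hF.tridegree hF.noFibre
    hF.isolated
  obtain ⟨c, rfl⟩ := Pool.Agent.W279.Tri.exists_form hF.tridegree
  obtain ⟨T₁, hT₁, hT₁', h1⟩ := N452.KR.main
    (Pool.Agent.W279.TriR.nice_of hF.noFibre hF.isolated)
  refine ⟨T₁ ∪ T₂, hT₁.union hT₂, ?_, fun σ ι _ p _ τ => ⟨fun x y hxy hx hy => ?_,
    fun hp P hP hPE hPs => ?_⟩⟩
  · rintro P (hP | hP)
    · refine ⟨(hT₁' P hP).1, ?_⟩
      rw [Pool.Agent.W279.Tri.eval_form]
      exact (hT₁' P hP).2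
    · exact hT₂' P hP
  · rcases h1 σ ι p τ x y hxy hx hy with ⟨P, hP, h2, h3⟩ | h2
    · exact Or.inl ⟨P, Or.inl hP, h2, h3⟩
    · exact Or.inr h2
  · rcases hT₂'' P hP hPE with ⟨Q, hQ, hPQ⟩ | h2
    · exact Or.inl ⟨Q, Or.inr hQ, hPQ⟩
    by_cases hT : ∃ Q ∈ T₁, ∀ j, ∃ t : K, t ≠ 0 ∧ P j = t • Q j
    · obtain ⟨Q, hQ, hPQ⟩ := hT
      exact Or.inl ⟨Q, Or.inl hQ, hPQ⟩
    right
    obtain ⟨U, hU, h3⟩ := (h2 ι p hp τ).2 σ
    have hc : Continuous fun y : ∀ i, Fin 3 → Fin 2 → ℚ_[p i] =>
        (((fun j a => σ (P j a)), y) : (Fin 3 → Fin 2 → ℝ) × ∀ i, Fin 3 → Fin 2 → ℚ_[p i]) :=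
      continuous_const.prodMk continuous_id
    have hU' := hc.continuousAt.preimage_mem_nhds hU
    have hne : {y : ∀ i, Fin 3 → Fin 2 → ℚ_[p i] | ∀ i j, y i j ≠ 0} ∈
        nhds (fun i j a => τ i (P j a) : ∀ i, Fin 3 → Fin 2 → ℚ_[p i]) := by
      have h4 : ∀ i j, ∀ᶠ y : ∀ i, Fin 3 → Fin 2 → ℚ_[p i] in
          nhds (fun i j a => τ i (P j a) : ∀ i, Fin 3 → Fin 2 → ℚ_[p i]), y i j ≠ 0 := by
        intro i j
        have hcont : Continuous fun y : ∀ i, Fin 3 → Fin 2 → ℚ_[p i] => y i j := by fun_prop
        exact hcont.continuousAt.eventually_ne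
          (Pool.Agent.W279.Tri.map_ne (τ i) (hP j))
      exact Filter.eventually_all.2 fun i => Filter.eventually_all.2 fun j => h4 i j
    refine ⟨_, Filter.inter_mem hU' hne, fun y hy hyE x' hx' => ?_⟩
    have h5 := h3 _ hy.1 hPs.2.1 hyE
    rcases h1 σ ι p τ _ y h5 hPs hy.2 with ⟨Q, hQ, h6, -⟩ | h6
    · refine absurd ⟨Q, hQ, ?_⟩ hT
      exact Pool.Agent.W279.TriR.eqv_of_map (σ := σ) hP (hT₁' Q hQ).1 h6
    · exact h6 x' hx'

end Pool.Agent.Results.MP_ed3816_nt.RealComponents
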